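import Pool.Agent.Lib.MP_adb5ad_gt.W.All

open MeasureTheory Real
open Pool.Agent.Lib.MP_adb5ad_gt Pool.Agent.Lib.MP_adb5ad_gt.W

namespace Pool.Agent.Lib.MP_adb5ad_gt.Old.CommonGaps

/-- Let `d ≥ 2` and `α > 0`. The contact radii common to all functions (radial or not) of the
class W which attain `B_d(α)` are unbounded with gaps tending to zero, and so are the common zero
radii of their Fourier transforms. -/
theorem result (d : ℕ) (hd : 2 ≤ d) (α : ℝ) (hα : 0 < α) (ρ : ℝ) (hρ : 0 < ρ) :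
    ∃ s₀ : ℝ, ∀ s : ℝ, s₀ ≤ s →
      (∃ x : E d, x ≠ 0 ∧ s ≤ ‖x‖ ∧ ‖x‖ ≤ s + ρ ∧
        ∀ f : E d → ℝ, Attains d α f → f x = Real.exp (-α * ‖x‖ ^ 2)) ∧
      (∃ y : E d, y ≠ 0 ∧ s ≤ ‖y‖ ∧ ‖y‖ ≤ s + ρ ∧
        ∀ f : E d → ℝ, Attains d α f → ft f y = 0) :=
  common_gaps aVal aRad aGen aGap d hd α hα ρ hρ

end Pool.Agent.Lib.MP_adb5ad_gt.Old.CommonGaps
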